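import Pool.Agent.Work.MP_6722ca_lc.Bd.B04
import Pool.Agent.Work.MP_6722ca_lc.Bd.B05
import Pool.Agent.Work.MP_6722ca_lc.Bd.B06

/-!
MP_6722ca_lc: second half of the assembly.
-/

set_option autoImplicit false

open MeasureTheory

namespace CEq

theorem okStatic : StmtStatic :=
  thmStatic (thmLim thmBase0 (thmEta thmSig thmBase0) thmBIso)
    (thmOut thmBase0 thmBox (thmStrong thmBIso) thmBIso)
    (thmIter thmBase0 thmBox thmBIso) (thmGroupEnd thmRaikov)

theorem okDyn : StmtDyn :=
  thmDyn thmSig okTTmp okWeak okMesh thmSeq thmBIso okPair okSigma okPsi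

theorem okErgFib : StmtErgFib := thmErgFib okTTmp okWeak thmSeq okErg

theorem okReverse : StmtReverse :=
  thmReverse thmFiber thmGen okDyn okErgFib okStatic thmBase0

theorem okFwdStatic : StmtFwdStatic :=
  thmFwdStatic (thmApprox thmTwo thmTwoMul) thmH0 thmErr thmMatch thmFlipMap

theorem okForward : StmtForward :=
  forward_of okFwdStatic (thmLift thmSig thmTTmeas)
    (thmFwdEnd thmSig okFunct thmVBasic thmGen okTTmp) thmBase0

theorem main :
    ∀ (G : Type) [TopologicalSpace G] [Group G] [IsTopologicalGroup G] [PolishSpace G]
      [MeasurableSpace G] [BorelSpace G]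
      (X : Type) [TopologicalSpace X] [PolishSpace X] [MeasurableSpace X] [BorelSpace X]
      [MulAction G X],
      Measurable (fun p : G × X => p.1 • p.2) →
      ∃ f : X → MeasurableEquiv unitInterval unitInterval,
        (∀ x, MeasurePreserving (f x) (volume : Measure unitInterval)
          (volume : Measure unitInterval)) ∧
        (∀ A B : Set unitInterval, MeasurableSet A → MeasurableSet B →
          Measurable (fun x : X => (volume : Measure unitInterval) ((f x) ⁻¹' A ∩ B))) ∧
        (∀ x y : X, (∃ g : G, g • x = y) ↔
          ∃ R : MeasurableEquiv unitInterval unitInterval,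
            MeasurePreserving R (volume : Measure unitInterval)
              (volume : Measure unitInterval) ∧
            (fun t : unitInterval => R (f x (R.symm t))) =ᵐ[(volume : Measure unitInterval)]
              (fun t : unitInterval => f y t)) :=
  final_of okAB okCoding stmtVoid okFunct thmVBasic thmSig thmTTmeas thmTTinv okTTmp thmGen
    thmBase0 okReverse okForward

end CEq
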